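import Pool.Agent.Helper81.Tok2.Num
import Pool.Agent.Helper28.Ram.Goals

/-!
# Token machines whose silent steps are free: the statements of the parts of the simulation

Every statement comes with its proof in words. The statements are close to those of
`Pool.Agent.Helper78.Tok.Goals` and `Pool.Agent.Helper28.Ram.Goals`, whose proofs can be adapted.
-/

namespace Pool.Agent.Helper81.Tok2

open Pool.Agent.Helper65.LinSpace Pool.Agent.Helper28.Ram Finset
open Pool.Agent.Helper28.Ram.Mach (sgz)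

/-! ### The polynomials -/

/-- INNER. Take `τ j = if j < i * wn then 0 else Y (j - i * wn)` and `x = vars p i X D` in
`fhat_sum` (`LinSpace/CM.lean`); then `(c + 1) * τ j + x j` is
`vars p i X (fun o => (c + 1) * Y o + D o) j`. (As in `Helper78.Tok`.) -/
def INNER_stmt : Prop := ∀ (m : Mach) (p : ℕ) [Fact p.Prime] (N i q : ℕ) (F : ℕ → ℕ)
    (X Y D : ℕ → ZMod p), N < p - 1 →
    ∑ c ∈ range (p - 1), fhat p N F q
      (m.vars p i X fun o => ((c + 1 : ℕ) : ZMod p) * Y o + D o) = -fhat p N F q (m.vars p i X D)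

/-- LINE. Use the predicate `PD d f` (`f : ZMod p → ZMod p` is the evaluation of a polynomial of
degree at most `d`) of the proof of `Helper78.Tok.LINE_stmt` or `Helper28.Ram.LINE_stmt`: closed
under finite sums and under products (sum of the degrees). The function
`x ↦ fhat p N F q (m.vars p i (fun j => x * X j + V j) D)` is `PD N`: a sum of products of `N`
factors of degree at most `1`. By induction on `u` the function
`x ↦ m.F p k i y r (fun j => x * X j + V j) u e f` is `PD (2 ^ u * nv i)` (for all `e`, `f`). So `fc` is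
`PD ((2 ^ h + 1) * nv i)`, and for `i < G` the function
`x ↦ m.P p k i u (fun j => x * X j + V j) o` is `PD (b * ((2 ^ h + 1) * nv i))`; for `i = G` it is
`PD (nv G)`. Both are smaller than `p - 1` (`nv i ≤ nv G`, `0 < b`), and `sum_eval_eq` finishes. -/
def LINE_stmt : Prop := ∀ (m : Mach) (p : ℕ) [Fact p.Prime], m.Ok →
    m.b * ((2 ^ m.h + 1) * m.nv m.G) < p - 1 →
    ∀ (k i u : ℕ) (X V : ℕ → ZMod p) (o : ℕ), i ≤ m.G →
      ∑ w ∈ range (p - 1), m.P p k i u (fun j => ((w + 1 : ℕ) : ZMod p) * X j + V j) o =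
        -m.P p k i u V o

/-- TRUTH1. The Boolean functions at the true values. Let `c t = m.conf (k * (G * b) + t)` be the
configurations of the block `k`; all events are smaller than `2 ^ σ` and all contents are smaller
than `2 ^ a` (`run` preserves `q < 2 ^ σ` as `slt q v` is `q` or `N q v`). `E k (2 s)` is `(c s).1`,
`E k (2 s + 1)` is the event `q` of the changing step number `s`, and
`(c (s + 1)).1 = N q ((c s).2 (A q))`, `(c (s + 1)).2 = update (c s).2 (A q) (W q ((c s).2 (A q)))`.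
(1) For `i ≤ G` and a cell `x` put
`z = tab (2 ^ σ) (i * (2 b)) (fun t => E k (t + 1)) + 2 ^ (i * wn) * m.tn k x`. Then `z < 2 ^ nv i`, and
for `j < nv i` the bit `j` of `z` is
`m.vars p i (fun j => m.V p k (j / wn) u (j % wn)) (m.T p k x) j`: for
`j < i * wn = i * (2 b) * σ` both are the bit `j % σ` of `E k (j / σ + 1)` (`j / wn < i ≤ G`;
`j / wn * (2 b) + j % wn / σ = j / σ`), and for `j = i * wn + o` both are the bit `o` of `tn k x`. So by
`fhat_congr` and `fhat_bits` `fhat p (nv i) F q (m.vars …) = bitZ p (F z) q`. (Compare the proof of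
`Helper78.Tok.TRUTH_stmt`.)
(2) `s0 i z = E k 0`, `c0 i z = (c 0).2 x`, `ez i z t = E k t` for `t ≤ i * (2 b)`.
(3) If the first `2 r` digits of `y` are right then `ev i y z t = E k t` for `t < 2 (i b + r)`, so
`cont i y z x n = (c n).2 x` for `n ≤ i b + r`, by induction on `n` (the step number `n` uses the event
`2 n + 1 < 2 (i b + r)`). For `i = G` take `r = 0`.
(4) The three claims follow: `chk0` with `x = A e`, `chk1` with `x = A (dig (2 ^ σ) y (2 r + 1))`,
`top x z = tn (k + 1) x`. -/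
def TRUTH1_stmt : Prop := ∀ (m : Mach) (p : ℕ) [Fact p.Prime], m.Ok → ∀ (k i u : ℕ), i ≤ m.G →
    (∀ (y r e f : ℕ), (∀ t < 2 * r, dig (2 ^ m.σ) y t = m.E k (i * (2 * m.b) + t)) →
      fhat p (m.nv i) (m.chk0 i y r e f) 0
        (m.vars p i (fun j => m.V p k (j / m.wn) u (j % m.wn)) (m.T p k (m.A e))) =
        if m.slt e ((m.conf (k * (m.G * m.b) + (i * m.b + r))).2 (m.A e)) = f then 1 else 0) ∧
    (∀ (y r : ℕ), (∀ t < 2 * r, dig (2 ^ m.σ) y t = m.E k (i * (2 * m.b) + t)) →
      fhat p (m.nv i) (m.chk1 i y r) 0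
        (m.vars p i (fun j => m.V p k (j / m.wn) u (j % m.wn))
          (m.T p k (m.A (dig (2 ^ m.σ) y (2 * r + 1))))) =
        if (r = 0 → dig (2 ^ m.σ) y 0 = m.E k (i * (2 * m.b))) ∧
          dig (2 ^ m.σ) y (2 * r + 2) = m.N (dig (2 ^ m.σ) y (2 * r + 1))
            ((m.conf (k * (m.G * m.b) + (i * m.b + r))).2 (m.A (dig (2 ^ m.σ) y (2 * r + 1))))
        then 1 else 0) ∧
    ∀ (x o : ℕ), fhat p (m.nv m.G) (m.top x) o
      (m.vars p m.G (fun j => m.V p k (j / m.wn) u (j % m.wn)) (m.T p k x)) =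
        bitZ p (m.tn (k + 1) x) o

/-- TRUTH (may assume TRUTH1). At the true values the polynomials give the true values. `i = G` is
the last part of TRUTH1 (`vn k G u = tn (k + 1) u`). Let `i < G` and
`y₀ = tab (2 ^ σ) (2 b + 1) (fun t => E k (i * (2 b) + t))`.
(1) Let the first `2 r` digits of `y` be right (equal to those of `y₀`), `r < b`, and `M` the memory
of `conf (k G b + (i b + r))`. By induction on `u` and TRUTH1:
`m.F p k i y r X u e f = if m.run M (2 ^ u) e = f then 1 else 0` for `e < 2 ^ σ`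
(`run M (2 ^ (u + 1)) e = run M (2 ^ u) (run M (2 ^ u) e)`, and `run M (2 ^ u) e < 2 ^ σ`; the sum has
one term `g = run M (2 ^ u) e`).
(2) So the factor `r` is `1` or `0`; if the first `2 r + 1` digits of `y` are right it is `1` if and only
if the digits `2 r + 1` and `2 r + 2` are right, too (`E k (2 (i b + r) + 1) = run M (2 ^ h) (E k (2 (i b + r)))`,
`E k (2 (i b + r) + 2) = N …`). For `r = 0` it also compares the digit `0` with `E k (i * (2 b))`.
(3) So for `y < 2 ^ (σ (2 b + 1))` the product over `r < b` is `1` for `y = y₀`, and `0` for `y ≠ y₀`: take the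
first wrong digit `d`: for `d = 0` the factor `0` is `0` (its second part; `TRUTH1` for `r = 0` needs no
right digit), for `d = 2 r + 1` or `2 r + 2` the factor `r` is `0`.
(4) So the sum is the term of `y₀`, and
`y₀ / 2 ^ σ = tab (2 ^ σ) (2 b) (fun t => E k (i * (2 b) + t + 1)) = vn k i u`. -/
def TRUTH_stmt : Prop := ∀ (m : Mach) (p : ℕ) [Fact p.Prime], m.Ok →
    ∀ (k i u o : ℕ), i ≤ m.G →
      m.P p k i u (fun j => m.V p k (j / m.wn) u (j % m.wn)) o = m.V p k i u o

/-! ### The procedures -/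

/-- SAV. Folding the values of all leaves gives the product of the factors. Let `D = 2 ^ (σ + 1)`,
so `sv = D ^ h`. The leaves `v = r * (sv + 1) + w`, `w ≤ sv`, have `v / (sv + 1) = r`, `v % (sv + 1) = w`; for
`w < sv` the value `lv v` is `F 0 (pe e w h) (pf f w h)` with `e = dig y (2 r)`, `f = dig y (2 r + 1)` (by
definition of `qy`, `bf`, `F`), and for `w = sv` it is the second factor of `fc`. (`iter_mul`, `iter_add`.)
Fix `r`. For `j ≥ u` let `g (w, u, c) j` be: `g u = c`, `g (j + 1) = (if gp w j = 0 then 0 else sa j) + sl j * g j`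
(`cv` started at the level `u`; `cv` itself is the case `u = 0`).
CLAIM for `u ≤ h`, `W < D ^ (h - u)`, `w₀ = W * D ^ u`, `w₁ = w₀ + D ^ u - 1`: the endpoints
`e_u = pe e w (h - u)`, `f_u = pf f w (h - u)` are the same for all `w₀ ≤ w ≤ w₁` (they depend only on the digits
`≥ u`, that is on `w / D ^ u = W`), and folding the leaves `w₀, …, w₁` into any `(ac, sa, sl)` gives
`(ac', sa', sl')` with, for `c = F u e_u f_u`,
`ac' = ac * g (w₁, u, c) h` if `w₁ + 1 = sv`, else `ac`; for `j ≥ u`: `sl' j = g (w₁, u, c) j` if `rch w₁ j = 1`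
and `sd w₁ j = 0`, else `sl j`; `sa' j = g (w₁, u, c) (j + 1)` if `rch w₁ j = 1` and `sd w₁ j = 1`, else `sa j`.
(`rch w₁ j = 1` iff the digits `< j` of `w₁` are all `D - 1`; for `j = u` it is always `1`.)
`u = 0` is the definition of `fstep`. Step `u → u + 1`: the block consists of `D` blocks of size `D ^ u`, with the
digit `u` equal to `d = 2 g + s`, `g < 2 ^ σ`. `s = 0`: the end points are `(e_(u+1), g)`; as the digit `u` is not
`D - 1`, only the level `u` changes: `sl u` becomes `F u e_(u+1) g`. `s = 1`: end points `(g, f_(u+1))`; `sa u` becomes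
`(if g = 0 then 0 else sa u) + sl u * F u g f_(u+1)`, so after it `sa u = ∑ g' ≤ g, F u e_(u+1) g' * F u g' f_(u+1)`;
for `g < 2 ^ σ - 1` nothing else changes, and for `g = 2 ^ σ - 1` the value `g (w₁, u, c) (u + 1)` is the full
sum `F (u + 1) e_(u+1) f_(u+1)`, which is passed on to the levels `≥ u + 1`, which have their old values.
For `u = h`, `W = 0`: `ac` is multiplied by `F h e f`; the leaf `sv` multiplies it by the second factor and changes
nothing else. Then induction on `r`. -/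
def SAV_stmt : Prop := ∀ (m : Mach) (p : ℕ) [Fact p.Prime] (k i y : ℕ) (X : ℕ → ZMod p)
    (t : ZMod p × (ℕ → ZMod p) × (ℕ → ZMod p)), t.1 = 1 →
      (iter (fun v t => m.fstep p (v % (m.sv + 1)) (m.lv p k i y X v) t) m.nl t).1 =
        ∏ r ∈ range m.b, m.fc p k i y r X

/-- ELEV (may assume INNER and SAV). The evaluation of the polynomials. Put `k = l / (G + 2)`. All
operations only set mode, node and sign of the level `l` and change `R`, `qa k`, `ac k`, `au k`, `sa k`,
`sl k`, which do not matter for `Agree (l + 1)` except `R`, since `l = k (G + 2)`. The ideal procedure of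
the level `l`, called with mode `1`, node `G`, sign `g ∈ {0, 1}` and query `x = qa k`, adds `± T k x o`
to the registers `cl k + o`, `o < wc` (for `l = 0`, `k = 0` by definition; for `l > 0`:
`(l - 1) / (G + 2) = k - 1`, `(l - 1) % (G + 2) = G + 1 > G`, `lo (k - 1) G = cl k`, `ln G = wc`,
`V (k - 1) G x = T k x` by definition); called with mode `0` it does nothing. If the level `l + 1` is
not active (`md ≠ 2` or `nd > G`) nothing happens. Let it be active.
(1) `i = nd < G`. Fix a transcript `y` and a leaf `v < nl`; the `3 (p - 1)` operations with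
`e / 3 / (p - 1) = v`, each followed by the ideal procedure: for `c = 1, …, p - 1`
(`c = e / 3 % (p - 1) + 1`) the content registers `C o = R (cl k + o)` become `c * C o`, then
`c * C o + T k x o` with `x = qy y v`, then `fhat (bf i y v) (vars R (c * C + T))` is added to `au k` (set
to `0` at the start), then `T k x` is subtracted, and `C` is multiplied by `c⁻¹`; so `R` is the same as
before, and by INNER (`nv i < p - 1`) the final `au k` is `-lv k i y R v`; so the last operation folds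
the value `lv k i y R v` of the leaf: `(ac k, sa k, sl k)` changes by `fstep (v % (sv + 1)) (lv v)`
(`ac k` is set to `1` for `e = 0`). The other registers which occur in `vars i` (those before `i * wn`)
are not changed. So by SAV after all leaves `ac k` is the product of the `fc p k i y r R`, and the last
operation `e = 3 (nl (p - 1))` subtracts `sgn * ac k * bit o of y / 2 ^ σ` from the registers `lo k i + o`,
`o < wn`; these are not among the registers before `i * wn` nor `cl k + o` (`i < G`). Sum over the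
transcripts: `cnt = 2 ^ (σ (2 b + 1)) * ny`, `iter_mul`.
(2) `i = G`: the operations `j < 3 (p - 1)` come in triples, `c = j / 3 + 1`: the same, but the
operation `3 (c - 1) + 1` adds `sgn * fhat p (nv G) (top x) o (vars G R (c * C + T k x))` to the registers
`lo k G + o = cl (k + 1) + o`, `o < wc`, which are disjoint from the registers `cl k + o` and from those
before `G * wn` (parity in `cl`). The other operations do nothing. By INNER the sum is
`-sgn * P k G x R`. (`3 (p - 1) ≤ cnt` as `0 < nl`.) Compare the proof of `Helper78.Tok.ELEV_stmt`. -/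
def ELEV_stmt : Prop := ∀ (m : Mach) (p : ℕ) [Fact p.Prime], m.Ok →
    m.b * ((2 ^ m.h + 1) * m.nv m.G) < p - 1 → ∀ (l : ℕ),
    l % (m.G + 2) = 0 → ∀ s : Mach.St p,
      m.Agree (l + 1) (iter (fun j s => m.ideal l (m.op l j s)) (m.cnt p l) s) (m.ideal (l + 1) s)

/-- NLEV (may assume LINE and TRUTH). The evaluation of a node, word by word as
`Helper78.Tok.NLEV_stmt` (only `wn` and the condition on `p` are different). -/
def NLEV_stmt : Prop := ∀ (m : Mach) (p : ℕ) [Fact p.Prime], m.Ok →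
    m.b * ((2 ^ m.h + 1) * m.nv m.G) < p - 1 → ∀ (l : ℕ), l % (m.G + 2) ≠ 0 → ∀ s : Mach.St p,
      m.Agree (l + 1) (iter (fun j s => m.ideal l (m.op l j s)) (m.cnt p l) s) (m.ideal (l + 1) s)

/-- AGREE. The operations of the level `l + 1` and the ideal procedure of the level `l` read only
those data which are the same in the two states, or overwrite them: mode, node and sign of the level
`l + 1`, `R`, `qa (l / (G + 2) + 1)`, and, only if `l = k (G + 2)`, `ac k`, `au k`, `sa k`, `sl k`. (See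
the proof of `Helper78.Tok.AGREE_stmt`.) -/
def AGREE_stmt : Prop := ∀ (m : Mach) (p : ℕ) [Fact p.Prime] (l : ℕ) (s t : Mach.St p),
    m.Agree l s t → (∀ j, m.Agree l (m.op l j s) (m.op l j t)) ∧
      m.Agree l (m.ideal l s) (m.ideal l t) ∧ m.Agree (l + 1) s t

/-- PROC (may assume ELEV, NLEV, AGREE). Induction on `l`: by induction on `n`,
`Agree l (iter (fun j s => proc l (op l j s)) n s) (iter (fun j s => ideal l (op l j s)) n s)`.
For `l = 0` `op0` and `ideal 0` are the same since `conf 0 = (q0, M0)`. -/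
def PROC_stmt : Prop := ∀ (m : Mach) (p : ℕ) [Fact p.Prime], m.Ok →
    m.b * ((2 ^ m.h + 1) * m.nv m.G) < p - 1 → ∀ (l : ℕ) (s : Mach.St p),
      m.Agree l (m.proc l s) (m.ideal l s)

/-- FINAL (may assume PROC). `K = 0`: `ideal 0`. `K > 0`: the level `K (G + 2) = l + 1` has
`l / (G + 2) = K - 1` and `l % (G + 2) = G + 1`. -/
def FINAL_stmt : Prop := ∀ (m : Mach) (p : ℕ) [Fact p.Prime], m.Ok →
    m.b * ((2 ^ m.h + 1) * m.nv m.G) < p - 1 → ∀ (K o : ℕ), o < m.wc →
      (m.proc (K * (m.G + 2)) (m.st0 p (K * (m.G + 2)))).R (m.cl K + o) = m.T p K 0 o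

/-! ### The digits -/

/-- FCAST. The numeric extension is the extension: each factor is `X j` or `1 - X j` in `ZMod p`. The
numeric folding is the folding: induction on `u`. -/
def FCAST_stmt : Prop := (∀ (p N : ℕ) [Fact p.Prime] (F : ℕ → ℕ) (q : ℕ) (X : ℕ → ℕ)
    (X' : ℕ → ZMod p), (∀ j < N, X j < p ∧ ((X j : ℕ) : ZMod p) = X' j) →
      ((fhG p N F q X : ℕ) : ZMod p) = fhat p N F q X') ∧
    ∀ (m : Mach) (p w c u : ℕ) [Fact p.Prime] (sa sl : ℕ → ℕ) (sa' sl' : ℕ → ZMod p),
      (∀ t < u, ((sa t : ℕ) : ZMod p) = sa' t ∧ ((sl t : ℕ) : ZMod p) = sl' t) →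
      ((m.cvN p w c sa sl u : ℕ) : ZMod p) = m.cv p w (c : ZMod p) sa' sl' u

/-- REL (may assume FCAST). The operations on digits do the same as the operations on states. By
cases for the kind `x % 9` of the entry; for the registers and accumulators use: a number smaller than
`p` whose cast is `z` is `z.val`; `p - a` is cast to `-a` for `a ≤ p`. All entries which are read have an
index smaller than `9 J` (for the block `k = l / (G + 2) < K` and the levels of squaring `t ≤ h` the entry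
`9 (k (h + 1) + t) + 8` is smaller than `9 J` by `h6`; `(k (h + 1) + t) / (h + 1) = k`, and
`nsa … u`, `nsl … u` for `u ≤ h` use only the levels `≤ h`). (See the proof of `Helper28.Ram.REL_stmt`.) -/
def REL_stmt : Prop := ∀ (m : Mach) (p : ℕ) [Fact p.Prime], m.Ok → ∀ (J K : ℕ), m.Fit p J K →
    (∀ l < K * (m.G + 2), ∀ (j : ℕ) (a : ℕ → ℕ) (s : Mach.St p), m.Rel J K a s →
      m.Rel J K (trc (9 * J) (m.opA p l j a)) (m.op l j s)) ∧
    ∀ (a : ℕ → ℕ) (s : Mach.St p), m.Rel J K a s →
      m.Rel J K (trc (9 * J) (m.baseA p a)) (m.op0 s)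

/-- LSFN. The numeric extensions are computed in linear space. First `slt, s0, c0, ez, ev, cont, chk0,
chk1, top` (as in `Helper78.Tok.LSFN_stmt`: powers `2 ^ σ`, `2 ^ (i * wn) = (2 ^ σ) ^ (i * (2 b))`), then
`sv` (`LS.pow_of_le` with the bound `hS`), `2 ^ (σ + 1) = 2 * 2 ^ σ`, `gp`, `sd` by `LS.dig`, `pe`, `pf` by
`LS.nrec` (their values are at most the start value plus `2 ^ (σ + 1)`), `qy`, `bf`. Then the sum over
`u < 2 ^ N` by `LS.sumMod` and the products by `LS.prodMod`. The number of variables is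
`nv (min i G)`, so `2 ^ N ≤ C`. The last two parts: `cvN` by `LS.nrec` with the bound `c + p` (for `u = 0` the
value is `c`, otherwise smaller than `p`), `rch w (min u h)` with `(2 ^ (σ + 1)) ^ min u h ≤ sv ≤ C`. -/
def LSFN_stmt : Prop := ∀ {α : Type} [Ctx α] {m : α → Mach} {C p i y v u q k w c : α → ℕ}
    {X Y Z : α → ℕ → ℕ}, LSM m C → LS p → (∀ z, 0 < p z) → LS i → LS y → LS v → LS u → LS q →
    LS k → LS w → LS c → LS (fun z : α × ℕ => X z.1 z.2) → LS (fun z : α × ℕ => Y z.1 z.2) →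
    LS (fun z : α × ℕ => Z z.1 z.2) →
    LS (fun z => fhG (p z) ((m z).nv (min (i z) (m z).G)) ((m z).bf (i z) (y z) (v z)) 0
      ((m z).varN (i z) (X z) fun o => X z ((m z).cl (k z) + o))) ∧
    LS (fun z => fhG (p z) ((m z).nv (m z).G) ((m z).top (u z)) (q z)
      ((m z).varN (m z).G (X z) fun o => X z ((m z).cl (k z) + o))) ∧
    LS (fun z => (m z).qy (y z) (v z)) ∧ LS (fun z => (m z).sv) ∧
    LS (fun z => (m z).nslN (p z) (w z) (c z) (Y z) (Z z) (min (u z) (m z).h)) ∧
    LS (fun z => (m z).nsaN (p z) (w z) (c z) (Y z) (Z z) (min (u z) (m z).h)) ∧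
    LS (fun z => (m z).nacN (p z) (w z) (c z) (Y z) (Z z) (q z))

/-- LSOP (may assume LSFN). The operations on digits are computed in linear space. (See the proof of
`Helper78.Tok.LSOP_stmt`. In `nAu` the number of variables is `nv nd` with `nd < G` if `isY ≠ 0`, so `nd` can be
replaced by `min nd G`; `x % (h + 1) = min (x % (h + 1)) h`.) -/
def LSOP_stmt : Prop := ∀ {α : Type} [Ctx α] {m : α → Mach} {C p : α → ℕ},
    LSM m C → LS p → (∀ z, 0 < p z) →
    LS (fun z : α × ℕ × ℕ × ℕ × ℕ => (m z.1).opA (p z.1) z.2.1 z.2.2.1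
      (dig (p z.1) z.2.2.2.1) z.2.2.2.2) ∧
    LS (fun z : α × ℕ × ℕ => (m z.1).baseA (p z.1) (dig (p z.1) z.2.1) z.2.2)

/-! ### The parameters -/

/-- The number of intervals of a block, and the number of blocks. -/
def gH (n h : ℕ) : ℕ := Nat.sqrt (n / (ll n + h)) + 1

/-- The prime. -/
noncomputable def pH (n h : ℕ) : ℕ := nextPrime ((n + 2) ^ 4 * 2 ^ h)

/-- The number of digits of each kind. -/
def JH (n h : ℕ) : ℕ := 8 * ((gH n h + 1) * (gH n h + 1))

/-- The bound for all numbers. -/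
def CH (x : ℕ) : ℕ := (x + 2) ^ 40000

/-- The parameters of the machine `m` are admissible for inputs of length `n`. -/
structure Par (n : ℕ) (m : Mach) : Prop where
  hσ : m.σ ≤ gH n m.h
  hh : (m.σ + 1) * m.h ≤ gH n m.h
  hG : m.G = gH n m.h
  hb : m.b = gH n m.h / m.σ
  ha : m.a ≤ gH n m.h * gH n m.h

/-- PARA. Put `g = gH n h ≥ 1`, `s = g - 1`, `s ^ 2 ≤ n / (ll n + h) ≤ n` (`ll n ≥ 1`). `σ b ≤ g`, so `wn ≤ 2 g`,
`wc = σ + a ≤ g + g ^ 2`, `G wn + 2 wc ≤ 4 g ^ 2 + 2 g`, `(g + 1) σ ≤ (g + 1) g`; `h ≤ (σ + 1) h ≤ g`, so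
`(g + 1) (h + 1) ≤ (g + 1) ^ 2`. `g < p` as `g ≤ n + 1`. Degree: `nv G ≤ 3 g ^ 2 + g`, `2 ^ h + 1 ≤ 2 * 2 ^ h`, so
`b ((2 ^ h + 1) nv G) + 1 ≤ 2 ^ h (6 g ^ 3 + 2 g ^ 2 + 1) ≤ 2 ^ h (n + 2) ^ 4 < p` since
`6 (s + 1) ^ 3 + 2 (s + 1) ^ 2 + 1 ≤ (s ^ 2 + 2) ^ 4` for all `s` (`s = 0`: `9 ≤ 16`, `s = 1`: `57 ≤ 81`, `s ≥ 2`
clear). (`nextPrime_spec`; compare the proofs of PAR1 of `Helper28.Ram` and PARA of `Helper78.Tok`.) -/
def PARA_stmt : Prop := ∀ (n : ℕ) (m : Mach), m.Ok → Par n m →
    m.Fit (pH n m.h) (JH n m.h) (gH n m.h) ∧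
    m.b * ((2 ^ m.h + 1) * m.nv m.G) < pH n m.h - 1

/-- PARB. (Compare PAR2 of `Helper28.Ram`.) Put `n = log x`, `g = gH n h`, `λ = ll n + h ≥ 1`. `h ≤ g ≤ n + 1`,
so `λ ≤ 2 (n + 1)`. `n + 2 ≤ 2 ^ (ll n + 1)` and Bertrand give `p ≤ 2 (n + 2) ^ 4 2 ^ h ≤ 2 ^ (9 λ)`;
`(g + 1) ^ 2 ≤ 2 (n / λ) + 8`. So `p ^ (9 JH) ≤ 2 ^ (72 (2 (n / λ) + 8) * 9 λ) ≤ 2 ^ (11664 (n + 1))` (as
`(n / λ) λ ≤ n`). The product has `g` factors `2 ^ (σ (2 b + 1)) * ny ≤ 2 ^ (4 g + 13 λ)`
(`σ (2 b + 1) ≤ 3 g`, `sv ≤ 2 ^ g`, `nl ≤ 2 g 2 ^ g`, `g ≤ 2 ^ λ`), and `g (g + 1)` factors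
`(p - 1) (2 g + 3) ≤ 2 ^ (13 λ)`; the sum of the exponents is at most
`17 λ (g + 1) ^ 2 ≤ 17 λ (2 (n / λ) + 8) ≤ 306 (n + 1)`. Finally
`two_pow_log_le : 2 ^ (k * (log x + 1)) ≤ (x + 2) ^ (2 k)`. -/
def PARB_stmt : Prop := ∀ (x : ℕ) (m : Mach), m.Ok → Par (Nat.log 2 x) m →
    pH (Nat.log 2 x) m.h ^ (9 * JH (Nat.log 2 x) m.h) ≤ CH x ∧
      ∏ l ∈ range (gH (Nat.log 2 x) m.h * (m.G + 2)), m.cnt (pH (Nat.log 2 x) m.h) l ≤ CH x

end Pool.Agent.Helper81.Tok2
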