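import Pool.Agent.Helper81.Tok2.Sim
import Pool.Agent.Helper65.LinSpace.Block

/-!
# Token machines whose silent steps are free: at the true values the polynomials give the true values
-/

namespace Pool.Agent.Helper81.Tok2

open Pool.Agent.Helper65.LinSpace Pool.Agent.Helper28.Ram Finset
open Pool.Agent.Helper28.Ram.Mach (sgz)

namespace Mach

variable {m : Mach}

theorem E_lt (hm : m.Ok) (k t : ℕ) : m.E k t < 2 ^ m.σ := by
  unfold E
  split_ifs
  · exact (cf_lt hm _).1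
  · exact run_lt hm _ _ (cf_lt hm _).1

/-- The memory after `r` macro steps of the interval `i` of the block `k`. -/
def MM (m : Mach) (k i r : ℕ) : ℕ → ℕ := (m.conf (k * (m.G * m.b) + (i * m.b + r))).2

theorem E_even (m : Mach) (k i r : ℕ) :
    m.E k (i * (2 * m.b) + 2 * r) = (m.conf (k * (m.G * m.b) + (i * m.b + r))).1 := by
  have h1 : i * (2 * m.b) + 2 * r = 2 * (i * m.b + r) := by ring
  unfold E
  rw [h1, Nat.mul_mod_right, if_pos rfl, Nat.mul_div_cancel_left _ (by norm_num)]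

theorem E_odd (m : Mach) (k i r : ℕ) :
    m.E k (i * (2 * m.b) + (2 * r + 1)) =
      m.run (m.MM k i r) (2 ^ m.h) (m.E k (i * (2 * m.b) + 2 * r)) := by
  rw [E_even]
  have h1 : i * (2 * m.b) + (2 * r + 1) = 2 * (i * m.b + r) + 1 := by ring
  have h2 : (2 * (i * m.b + r) + 1) % 2 = 1 := by omega
  have h3 : (2 * (i * m.b + r) + 1) / 2 = i * m.b + r := by omega
  unfold E
  rw [h1, h2, h3, if_neg one_ne_zero]
  rfl

theorem E_next (m : Mach) (k i r : ℕ) :
    m.E k (i * (2 * m.b) + (2 * r + 2)) = m.N (m.E k (i * (2 * m.b) + (2 * r + 1)))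
      (m.MM k i r (m.A (m.E k (i * (2 * m.b) + (2 * r + 1))))) := by
  have h1 : i * (2 * m.b) + (2 * r + 2) = i * (2 * m.b) + 2 * (r + 1) := by ring
  rw [h1, E_even, E_odd, E_even]
  rfl

theorem F_true (h1 : TRUTH1_stmt) (hm : m.Ok) (p : ℕ) [Fact p.Prime] {k i u y r : ℕ}
    (hi : i ≤ m.G) (hy : ∀ t < 2 * r, dig (2 ^ m.σ) y t = m.E k (i * (2 * m.b) + t)) (v : ℕ) {e : ℕ}
    (f : ℕ) (he : e < 2 ^ m.σ) :
    m.F p k i y r (fun j => m.V p k (j / m.wn) u (j % m.wn)) v e f =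
      if m.run (m.MM k i r) (2 ^ v) e = f then 1 else 0 := by
  induction v generalizing e f with
  | zero => exact (h1 m p hm k i u hi).1 y r e f hy
  | succ v ih =>
    have h2 : m.F p k i y r (fun j => m.V p k (j / m.wn) u (j % m.wn)) (v + 1) e f =
        ∑ g ∈ range (2 ^ m.σ),
          m.F p k i y r (fun j => m.V p k (j / m.wn) u (j % m.wn)) v e g *
          m.F p k i y r (fun j => m.V p k (j / m.wn) u (j % m.wn)) v g f := rfl
    have h3 : m.run (m.MM k i r) (2 ^ v) e < 2 ^ m.σ := run_lt hm _ _ he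
    have h4 : m.run (m.MM k i r) (2 ^ (v + 1)) e =
        m.run (m.MM k i r) (2 ^ v) (m.run (m.MM k i r) (2 ^ v) e) := by
      unfold run
      rw [pow_succ, mul_two, Function.iterate_add_apply]
    rw [h2, h4, Finset.sum_eq_single (m.run (m.MM k i r) (2 ^ v) e)]
    · rw [ih _ he, if_pos rfl, one_mul, ih _ h3]
    · intro g _ hg
      rw [ih _ he, if_neg fun h => hg h.symm, zero_mul]
    · intro h
      exact absurd (mem_range.mpr h3) h

theorem fc_true (h1 : TRUTH1_stmt) (hm : m.Ok) (p : ℕ) [Fact p.Prime] {k i u y r : ℕ}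
    (hi : i ≤ m.G) (hy : ∀ t ≤ 2 * r, dig (2 ^ m.σ) y t = m.E k (i * (2 * m.b) + t)) :
    m.fc p k i y r (fun j => m.V p k (j / m.wn) u (j % m.wn)) =
      if dig (2 ^ m.σ) y (2 * r + 1) = m.E k (i * (2 * m.b) + (2 * r + 1)) ∧
        dig (2 ^ m.σ) y (2 * r + 2) = m.E k (i * (2 * m.b) + (2 * r + 2)) then 1 else 0 := by
  have hy' : ∀ t < 2 * r, dig (2 ^ m.σ) y t = m.E k (i * (2 * m.b) + t) := fun t ht => hy t ht.le
  unfold fc
  rw [F_true h1 hm p hi hy' _ _ (dig_lt (by positivity) _ _), (h1 m p hm k i u hi).2.1 y r hy',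
    hy _ le_rfl, ← E_odd]
  by_cases h2 : dig (2 ^ m.σ) y (2 * r + 1) = m.E k (i * (2 * m.b) + (2 * r + 1))
  · rw [if_pos h2.symm, one_mul, h2]
    refine if_congr ⟨fun h => ⟨rfl, ?_⟩, fun h => ⟨fun h0 => ?_, ?_⟩⟩ rfl rfl
    · rw [h.2, E_next]
      rfl
    · have := hy 0 (Nat.zero_le _)
      rwa [Nat.add_zero] at this
    · rw [h.2, E_next]
      rfl
  · rw [if_neg fun h => h2 h.symm, zero_mul, if_neg fun h => h2 h.1]

theorem fc_zero (h1 : TRUTH1_stmt) (hm : m.Ok) (p : ℕ) [Fact p.Prime] {k i u y : ℕ}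
    (hi : i ≤ m.G) (hy : dig (2 ^ m.σ) y 0 ≠ m.E k (i * (2 * m.b))) :
    m.fc p k i y 0 (fun j => m.V p k (j / m.wn) u (j % m.wn)) = 0 := by
  unfold fc
  rw [(h1 m p hm k i u hi).2.1 y 0 (fun t ht => absurd ht (by omega)),
    if_neg fun h => hy (h.1 rfl), mul_zero]

/-- The product of the factors. -/
theorem prod_fc (h1 : TRUTH1_stmt) (hm : m.Ok) (p : ℕ) [Fact p.Prime] {k i u : ℕ} (hi : i ≤ m.G)
    (y n : ℕ) :
    ∏ r ∈ range (n + 1), m.fc p k i y r (fun j => m.V p k (j / m.wn) u (j % m.wn)) =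
      if ∀ j ≤ 2 * (n + 1), dig (2 ^ m.σ) y j = m.E k (i * (2 * m.b) + j) then 1 else 0 := by
  induction n with
  | zero =>
    rw [prod_range_one]
    by_cases h0 : dig (2 ^ m.σ) y 0 = m.E k (i * (2 * m.b))
    · rw [fc_true h1 hm p hi fun j hj => by
        rw [show j = 0 by omega]; exact h0]
      refine if_congr ⟨fun h j hj => ?_, fun h => ⟨h 1 (by omega), h 2 (by omega)⟩⟩ rfl rfl
      rcases (show j = 0 ∨ j = 2 * 0 + 1 ∨ j = 2 * 0 + 2 by omega) with rfl | rfl | rfl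
      · exact h0
      · exact h.1
      · exact h.2
    · rw [fc_zero h1 hm p hi h0, if_neg fun h => h0 (h 0 (Nat.zero_le _))]
  | succ n ih =>
    rw [prod_range_succ, ih]
    by_cases h0 : ∀ j ≤ 2 * (n + 1), dig (2 ^ m.σ) y j = m.E k (i * (2 * m.b) + j)
    · rw [if_pos h0, one_mul, fc_true h1 hm p hi h0]
      refine if_congr ⟨fun h j hj => ?_, fun h => ⟨h _ (by omega), h _ (by omega)⟩⟩ rfl rfl
      rcases (show j ≤ 2 * (n + 1) ∨ j = 2 * (n + 1) + 1 ∨ j = 2 * (n + 1) + 2 by omega) with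
        h2 | rfl | rfl
      · exact h0 j h2
      · exact h.1
      · exact h.2
    · rw [if_neg h0, zero_mul, if_neg fun h => h0 fun j hj => h j (by omega)]

end Mach

open Mach in
/-- At the true values the polynomials give the true values. -/
theorem TRUTH (h1 : TRUTH1_stmt) : TRUTH_stmt := by
  intro m p _ hm k i u o hi
  unfold Mach.P
  by_cases hiG : i < m.G
  · rw [if_pos hiG]
    have hpow : 2 ^ (m.σ * (2 * m.b + 1)) = (2 ^ m.σ) ^ (2 * m.b + 1) := by rw [pow_mul]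
    have hb := hm.hb
    obtain ⟨n, hn⟩ : ∃ n, m.b = n + 1 := ⟨m.b - 1, by omega⟩
    set d : ℕ → ℕ := fun r => m.E k (i * (2 * m.b) + r) with hd
    have hdlt : ∀ j < 2 * m.b + 1, d j < 2 ^ m.σ := fun j _ => E_lt hm k _
    have hy0 : tab (2 ^ m.σ) (2 * m.b + 1) d < 2 ^ (m.σ * (2 * m.b + 1)) := by
      rw [hpow]; exact tab_lt hdlt
    have hdig : ∀ j ≤ 2 * m.b, dig (2 ^ m.σ) (tab (2 ^ m.σ) (2 * m.b + 1) d) j = d j :=
      fun j hj => dig_tab hdlt (by omega)
    have hprod : ∀ y, ∏ r ∈ range m.b,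
        m.fc p k i y r (fun j => m.V p k (j / m.wn) u (j % m.wn)) =
        if ∀ j ≤ 2 * m.b, dig (2 ^ m.σ) y j = d j then 1 else 0 := by
      intro y
      have h2 := prod_fc (k := k) (u := u) h1 hm p hi y n
      rw [← hn] at h2
      rw [h2]
    rw [Finset.sum_eq_single (tab (2 ^ m.σ) (2 * m.b + 1) d)]
    · rw [hprod, if_pos hdig, one_mul]
      unfold Mach.V Mach.vn
      rw [if_pos hiG]
      congr 1
      rw [tab_succ', Nat.add_mul_div_left _ _ (by positivity),
        Nat.div_eq_of_lt (hdlt 0 (by omega)), zero_add]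
      refine tab_congr fun r _ => ?_
      rw [hd]
      simp only
      congr 1
    · intro y hy hne
      rw [hprod, if_neg, zero_mul]
      intro h
      refine hne ?_
      rw [mem_range, hpow] at hy
      rw [← tab_dig y (2 * m.b + 1) hy]
      exact tab_congr fun j hj => h j (by omega)
    · intro h
      exact absurd (mem_range.mpr hy0) h
  · have hG : i = m.G := by omega
    subst hG
    rw [if_neg hiG, (h1 m p hm k m.G u le_rfl).2.2]
    unfold Mach.V Mach.vn
    rw [if_neg hiG]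

end Pool.Agent.Helper81.Tok2
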