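import Pool.Agent.Helper81.Tok2.Goals

/-!
# Token machines whose silent steps are free are simulated in linear space
-/

namespace Pool.Agent.Helper81.Tok2

open Pool.Agent.Helper65.LinSpace Pool.Agent.Helper78.Mpc Pool.Agent.Helper28.Ram Finset
open Pool.Agent.Helper28.Ram.Mach (sgz)

namespace Mach

variable {m : Mach} {p : ℕ}

theorem run_lt {m : Mach} (hm : m.Ok) (M : ℕ → ℕ) (n : ℕ) {q : ℕ} (hq : q < 2 ^ m.σ) :
    m.run M n q < 2 ^ m.σ := by
  unfold run
  induction n generalizing q with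
  | zero => exact hq
  | succ n ih =>
    rw [Function.iterate_succ_apply]
    refine ih ?_
    unfold slt ifz
    split_ifs
    · exact hq
    · exact hm.hN _ _

theorem cf_lt {m : Mach} (hm : m.Ok) (t : ℕ) :
    (m.conf t).1 < 2 ^ m.σ ∧ ∀ a, (m.conf t).2 a < 2 ^ m.a := by
  induction t with
  | zero => exact ⟨hm.hq0, hm.hM0⟩
  | succ t ih =>
    refine ⟨hm.hN _ _, fun a => ?_⟩
    show Function.update (m.conf t).2 (m.A (m.run (m.conf t).2 (2 ^ m.h) (m.conf t).1))
      (m.W (m.run (m.conf t).2 (2 ^ m.h) (m.conf t).1) ((m.conf t).2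
        (m.A (m.run (m.conf t).2 (2 ^ m.h) (m.conf t).1)))) a < 2 ^ m.a
    by_cases h : a = m.A (m.run (m.conf t).2 (2 ^ m.h) (m.conf t).1)
    · subst h
      rw [Function.update_self]
      exact hm.hW _ _
    · rw [Function.update_of_ne h]
      exact ih.2 a

theorem rel_init [hp : Fact p.Prime] {J K : ℕ} (hf : m.Fit p J K) :
    m.Rel J K (trc (9 * J) (m.initA K)) (m.st0 p (K * (m.G + 2))) := by
  have hp0 := hp.out.pos
  refine ⟨fun x hx => ?_, fun t _ => ?_⟩
  · have h1 : trc (9 * J) (m.initA K) x = m.initA K x := if_pos hx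
    rw [h1]
    have h4 := hf.h4
    have h5 := hf.h5
    set l := K * (m.G + 2) with hl
    have e : m.initA K x = m.enc (m.st0 p l) x := by
      unfold initA enc st0 St.call
      rw [← hl]
      simp only [ifz_eq01]
      by_cases hx1 : x = 9 * l + 1
      · have a1 : x % 9 = 1 := by omega
        have a2 : x / 9 = l := by omega
        rw [if_pos hx1, a1, a2]
        simp
      · rw [if_neg hx1]
        by_cases hx2 : x = 9 * l + 2
        · have a1 : x % 9 = 2 := by omega
          have a2 : x / 9 = l := by omega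
          rw [if_pos hx2, a1, a2]
          simp
        · rw [if_neg hx2]
          by_cases c0 : x % 9 = 0
          · simp [c0]
          by_cases c1 : x % 9 = 1
          · have a2 : x / 9 ≠ l := by omega
            simp [c1, Function.update_of_ne a2]
          by_cases c2 : x % 9 = 2
          · have a2 : x / 9 ≠ l := by omega
            simp [c2, Function.update_of_ne a2]
          by_cases c3 : x % 9 = 3
          · by_cases a2 : x / 9 = l
            · simp [c3, a2]
            · simp [c3, Function.update_of_ne a2]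
          by_cases c4 : x % 9 = 4
          · simp [c4, dig]
          by_cases c5 : x % 9 = 5
          · simp [c5]
          by_cases c6 : x % 9 = 6
          · simp [c6]
          by_cases c7 : x % 9 = 7
          · simp [c7]
          · rw [if_neg c0, if_neg c1, if_neg c2, if_neg c3, if_neg c4, if_neg c5, if_neg c6, if_neg c7]
            simp
    refine ⟨e, ?_⟩
    unfold initA
    simp only [ifz_eq01]
    split_ifs <;> omega
  · show (0 : ℕ) < 2 ^ m.σ
    positivity

theorem rel_proc (hREL : REL_stmt) [Fact p.Prime] (hm : m.Ok) {J K : ℕ} (hf : m.Fit p J K) :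
    ∀ l ≤ K * (m.G + 2), ∀ (a : ℕ → ℕ) (s : St p), m.Rel J K a s →
      m.Rel J K (prc (9 * J) (m.cnt p) (m.baseA p) (m.opA p) l a) (m.proc l s) := by
  obtain ⟨h1, h2⟩ := hREL m p hm J K hf
  intro l
  induction l with
  | zero =>
    intro _ a s h
    exact h2 a s h
  | succ l ih =>
    intro hl a s h
    show m.Rel J K (iter (fun j s => prc (9 * J) (m.cnt p) (m.baseA p) (m.opA p) l
      (trc (9 * J) (m.opA p l j s))) (m.cnt p l) a) (iter (fun j s => m.proc l (m.op l j s))
        (m.cnt p l) s)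
    generalize m.cnt p l = n
    induction n with
    | zero => exact h
    | succ n ihn => exact ih (by omega) _ _ (h1 l (by omega) n _ _ ihn)

/-- The bits of the event in `tn`. -/
theorem dig_tn (hm : m.Ok) (k x : ℕ) {o : ℕ} (ho : o < m.σ) :
    dig 2 (m.tn k x) o = dig 2 (m.conf (k * (m.G * m.b))).1 o := by
  have hlt := (cf_lt hm (k * (m.G * m.b))).1
  unfold tn dig
  obtain ⟨d, hd⟩ : ∃ d, m.σ = o + (d + 1) := ⟨m.σ - o - 1, by omega⟩
  rw [hd, pow_add, mul_assoc, Nat.add_mul_div_left _ _ (by positivity), pow_succ, mul_comm (2 ^ d) 2,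
    mul_assoc 2, Nat.add_mul_mod_self_left]

theorem sim_eq (hREL : REL_stmt) (hFINAL : FINAL_stmt) [hp : Fact p.Prime] (hm : m.Ok) {J K : ℕ}
    (hf : m.Fit p J K) (hd : m.b * ((2 ^ m.h + 1) * m.nv m.G) < p - 1) :
    m.sim p J K = (m.conf (K * (m.G * m.b))).1 := by
  have hσ := hm.hσ
  have hb := hm.hb
  have hrel := rel_proc hREL hm hf (K * (m.G + 2)) le_rfl _ _ (rel_init hf)
  have hlt := (cf_lt hm (K * (m.G * m.b))).1
  unfold sim
  rw [← tab_dig _ m.σ hlt]
  refine tab_congr fun o ho => ?_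
  have hwc : o < m.wc := by
    unfold wc
    omega
  have hx : m.cl K + o < J := by
    have h1 := hf.h1
    unfold cl
    rcases Nat.mod_two_eq_zero_or_one K with h | h <;> rw [h] <;> omega
  obtain ⟨h1, _⟩ := hrel.1 (9 * (m.cl K + o)) (by omega)
  rw [h1]
  unfold enc
  have e1 : 9 * (m.cl K + o) % 9 = 0 := by omega
  have e2 : 9 * (m.cl K + o) / 9 = m.cl K + o := by omega
  rw [if_pos e1, e2, hFINAL m p hm hd K o hwc]
  unfold T bitZ
  rw [dig_tn hm K 0 ho]
  have h2 := dig_lt (q := 2) (by norm_num) (m.conf (K * (m.G * m.b))).1 o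
  rw [ZMod.val_natCast_of_lt (lt_of_lt_of_le h2 hp.out.two_le), Nat.mod_eq_of_lt h2]

end Mach

/-- The parts of the simulation. -/
structure Parts : Prop where
  FLAT : FLAT_stmt
  REL : REL_stmt
  FINAL : FINAL_stmt
  LSOP : LSOP_stmt
  PARA : PARA_stmt
  PARB : PARB_stmt

variable {α : Type} [Ctx α]

theorem ls_gH {n h : α → ℕ} (hn : LS n) (hh : LS h) : LS (fun a => gH (n a) (h a)) := by
  unfold gH
  fun_prop

theorem ls_pH {n h C : α → ℕ} (hn : LS n) (hh : LS h) (hC : LS C)
    (hb : ∀ z, 2 ^ h z ≤ C z) : LS (fun a => pH (n a) (h a)) := by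
  have h1 : LS (fun z => 2 ^ h z) :=
    LS.pow_of_le (f := fun _ => 2) (C := C) (by fun_prop) hh hC hb
  unfold pH
  fun_prop

theorem ls_JH {n h : α → ℕ} (hn : LS n) (hh : LS h) : LS (fun a => JH (n a) (h a)) := by
  have h := ls_gH hn hh
  unfold JH
  fun_prop

theorem gH_pos (n h : ℕ) : 0 < gH n h := Nat.succ_pos _

theorem pH_prime (n h : ℕ) : (pH n h).Prime := (nextPrime_spec (by positivity)).1

/-- **The simulation theorem for token machines with free silent steps.** The event of a machine on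
numbers after `gH n h * (gH n h * b)` macro steps is computed in linear space. -/
theorem ls_simT (P : Parts) {m : α → Mach} {x : α → ℕ} (hx : LS x)
    (hM : LSM m (fun z => CH (x z))) (hpar : ∀ z, Par (Nat.log 2 (x z)) (m z)) :
    LS (fun z => (m z).sim (pH (Nat.log 2 (x z)) (m z).h) (JH (Nat.log 2 (x z)) (m z).h)
      (gH (Nat.log 2 (x z)) (m z).h)) := by
  have hC := hM.bd
  have hσ := hM.σ
  have ha := hM.a
  have hb := hM.b
  have hG := hM.G
  have hh := hM.h
  have h2h : ∀ z, 2 ^ (m z).h ≤ CH (x z) := by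
    intro z
    refine le_trans ?_ (hM.hS z)
    unfold Mach.sv
    exact Nat.pow_le_pow_left (by rw [pow_succ]; have := Nat.one_le_two_pow (n := (m z).σ); omega) _
  have hg : LS (fun z => gH (Nat.log 2 (x z)) (m z).h) := ls_gH (by fun_prop) hh
  have hp : LS (fun z => pH (Nat.log 2 (x z)) (m z).h) := ls_pH (by fun_prop) hh hC h2h
  have hJ : LS (fun z => JH (Nat.log 2 (x z)) (m z).h) := ls_JH (by fun_prop) hh
  have hsv : LS (fun z => (m z).sv) := by
    unfold Mach.sv
    have e2 : LS (fun z => 2 ^ ((m z).σ + 1)) := by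
      have : LS (fun z => 2 ^ (m z).σ) := by
        refine LS.pow_of_le (f := fun _ => 2) (C := fun z => CH (x z)) (by fun_prop) hσ hC
          fun z => ?_
        refine le_trans (Nat.pow_le_pow_right (by norm_num) ?_) (hM.hC z)
        unfold Mach.nv Mach.wc
        omega
      have h3 : (fun z => 2 ^ ((m z).σ + 1)) = fun z => 2 ^ (m z).σ * 2 := by
        funext z
        rw [pow_succ]
      rw [h3]
      fun_prop
    exact LS.pow_of_le (C := fun z => CH (x z)) e2 hh hC fun z => hM.hS z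
  have hpp : ∀ z, 0 < pH (Nat.log 2 (x z)) (m z).h := fun z => (pH_prime _ _).pos
  have hp1 : ∀ z, 0 < pH (Nat.log 2 (x z)) (m z).h - 1 := fun z => by
    have := (pH_prime (Nat.log 2 (x z)) (m z).h).two_le
    omega
  obtain ⟨hop, hbase⟩ := P.LSOP hM hp hpp
  have hPar2 := fun z => P.PARB (x z) (m z) (hM.ok z) (hpar z)
  have hcnt0 : ∀ z l, 0 < (m z).cnt (pH (Nat.log 2 (x z)) (m z).h) l := by
    intro z l
    unfold Mach.cnt Mach.ny ifz
    split_ifs
    · positivity
    · exact Nat.mul_pos (hp1 z) (by omega)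
  have hpw : LS (fun z => 2 ^ ((m z).σ * (2 * (m z).b + 1))) := by
    refine LS.pow_of_le (f := fun _ => 2) (C := fun z => CH (x z)) (by fun_prop) (by fun_prop) hC
      fun z => ?_
    have h := (hPar2 z).2
    have h0 : 0 < gH (Nat.log 2 (x z)) (m z).h * ((m z).G + 2) :=
      Nat.mul_pos (gH_pos _ _) (by omega)
    refine le_trans ?_ h
    have h7 : (m z).cnt (pH (Nat.log 2 (x z)) (m z).h) 0 ≤
        ∏ l ∈ range (gH (Nat.log 2 (x z)) (m z).h * ((m z).G + 2)),
          (m z).cnt (pH (Nat.log 2 (x z)) (m z).h) l :=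
      Finset.single_le_prod' (f := fun l => (m z).cnt (pH (Nat.log 2 (x z)) (m z).h) l)
        (fun l _ => hcnt0 z l) (mem_range.2 h0)
    refine le_trans ?_ h7
    unfold Mach.cnt Mach.ny
    rw [Nat.zero_mod, ifz_zero]
    exact Nat.le_mul_of_pos_right _ (by omega)
  have hcnt : LS (fun z : α × ℕ => (m z.1).cnt (pH (Nat.log 2 (x z.1)) (m z.1).h) z.2) := by
    unfold Mach.cnt Mach.ny Mach.nl
    have a1 : LS (fun z : α × ℕ => (m z.1).G) := LS.comp (f := fun z : α × ℕ => z.1) hG
      (by fun_prop)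
    have a2 : LS (fun z : α × ℕ => (m z.1).b) := LS.comp (f := fun z : α × ℕ => z.1) hb
      (by fun_prop)
    have a3 : LS (fun z : α × ℕ => 2 ^ ((m z.1).σ * (2 * (m z.1).b + 1))) :=
      LS.comp (f := fun z : α × ℕ => z.1) hpw (by fun_prop)
    have a4 : LS (fun z : α × ℕ => pH (Nat.log 2 (x z.1)) (m z.1).h) :=
      LS.comp (f := fun z : α × ℕ => z.1) hp (by fun_prop)
    have a5 : LS (fun z : α × ℕ => (m z.1).sv) :=
      LS.comp (f := fun z : α × ℕ => z.1) hsv (by fun_prop)
    fun_prop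
  have hini : LS (fun z : α × ℕ => (m z.1).initA (gH (Nat.log 2 (x z.1)) (m z.1).h) z.2) := by
    unfold Mach.initA
    have a1 : LS (fun z : α × ℕ => (m z.1).G) := LS.comp (f := fun z : α × ℕ => z.1) hG
      (by fun_prop)
    have a2 : LS (fun z : α × ℕ => gH (Nat.log 2 (x z.1)) (m z.1).h) :=
      LS.comp (f := fun z : α × ℕ => z.1) hg (by fun_prop)
    fun_prop
  have hflat := P.FLAT (β := fun z => pH (Nat.log 2 (x z)) (m z).h)
    (Λ := fun z => 9 * JH (Nat.log 2 (x z)) (m z).h)
    (lv := fun z => gH (Nat.log 2 (x z)) (m z).h * ((m z).G + 2)) (C := fun z => CH (x z))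
    (cnt := fun z => (m z).cnt (pH (Nat.log 2 (x z)) (m z).h))
    (base := fun z => (m z).baseA (pH (Nat.log 2 (x z)) (m z).h))
    (op := fun z => (m z).opA (pH (Nat.log 2 (x z)) (m z).h))
    (s0 := fun z => (m z).initA (gH (Nat.log 2 (x z)) (m z).h))
    hp (by fun_prop) (by fun_prop) hC hcnt hbase hop hini
    (fun z s x => Nat.mod_lt _ (hpp z)) (fun z l j s x => Nat.mod_lt _ (hpp z)) ?_
    (fun z => (hPar2 z).1) (fun z => (hPar2 z).2) hcnt0
  · have hCσ : ∀ z, 2 ^ (m z).σ ≤ CH (x z) := by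
      intro z
      refine le_trans (Nat.pow_le_pow_right (by norm_num) ?_) (hM.hC z)
      unfold Mach.nv Mach.wc
      omega
    have hfin : LS (fun z => tab 2 (m z).σ fun o => prc (9 * JH (Nat.log 2 (x z)) (m z).h)
        ((m z).cnt (pH (Nat.log 2 (x z)) (m z).h)) ((m z).baseA (pH (Nat.log 2 (x z)) (m z).h))
        ((m z).opA (pH (Nat.log 2 (x z)) (m z).h)) (gH (Nat.log 2 (x z)) (m z).h * ((m z).G + 2))
        (trc (9 * JH (Nat.log 2 (x z)) (m z).h) ((m z).initA (gH (Nat.log 2 (x z)) (m z).h)))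
        (9 * ((m z).cl (gH (Nat.log 2 (x z)) (m z).h) + o)) % 2) := by
      refine LS.tab (q := fun _ => 2) (m := fun z => (m z).σ) (C := fun z => CH (x z))
        (d := fun z o => prc (9 * JH (Nat.log 2 (x z)) (m z).h)
        ((m z).cnt (pH (Nat.log 2 (x z)) (m z).h)) ((m z).baseA (pH (Nat.log 2 (x z)) (m z).h))
        ((m z).opA (pH (Nat.log 2 (x z)) (m z).h)) (gH (Nat.log 2 (x z)) (m z).h * ((m z).G + 2))
        (trc (9 * JH (Nat.log 2 (x z)) (m z).h) ((m z).initA (gH (Nat.log 2 (x z)) (m z).h)))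
        (9 * ((m z).cl (gH (Nat.log 2 (x z)) (m z).h) + o)) % 2) ?_ (LS.const 2) hσ hC
        (fun z i _ => Nat.mod_lt _ (by norm_num)) hCσ
      refine LS.mod ?_ (LS.const 2)
      have a0 : LS (fun z : α × ℕ => (m z.1).σ) := LS.comp (f := fun z : α × ℕ => z.1) hσ
        (by fun_prop)
      have a1 : LS (fun z : α × ℕ => (m z.1).G) := LS.comp (f := fun z : α × ℕ => z.1) hG
        (by fun_prop)
      have a2 : LS (fun z : α × ℕ => (m z.1).b) := LS.comp (f := fun z : α × ℕ => z.1) hb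
        (by fun_prop)
      have a3 : LS (fun z : α × ℕ => (m z.1).a) := LS.comp (f := fun z : α × ℕ => z.1) ha
        (by fun_prop)
      have a4 : LS (fun z : α × ℕ => gH (Nat.log 2 (x z.1)) (m z.1).h) :=
        LS.comp (f := fun z : α × ℕ => z.1) hg (by fun_prop)
      have a5 : LS (fun z : α × ℕ => (z.1, 9 * ((m z.1).cl (gH (Nat.log 2 (x z.1)) (m z.1).h) +
          z.2))) := by
        unfold Mach.cl Mach.wn Mach.wc
        fun_prop
      exact LS.comp (f := fun z : α × ℕ => (z.1, 9 * ((m z.1).cl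
        (gH (Nat.log 2 (x z.1)) (m z.1).h) + z.2))) hflat a5
    exact hfin
  · intro z i
    have h4 := (P.PARA (Nat.log 2 (x z)) (m z) (hM.ok z) (hpar z)).1.h4
    have h5 := (P.PARA (Nat.log 2 (x z)) (m z) (hM.ok z) (hpar z)).1.h5
    show (m z).initA _ i < _
    unfold Mach.initA
    simp only [ifz_eq01]
    split_ifs <;> omega

/-- The simulation computes the event of the machine. -/
theorem simT_eq (P : Parts) {m : Mach} (hok : m.Ok) {n : ℕ} (hpar : Par n m) :
    m.sim (pH n m.h) (JH n m.h) (gH n m.h) =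
      (m.conf (gH n m.h * (gH n m.h * (gH n m.h / m.σ)))).1 := by
  have h := P.PARA n m hok hpar
  have : Fact (pH n m.h).Prime := ⟨pH_prime _ _⟩
  rw [Mach.sim_eq P.REL P.FINAL hok h.1 h.2, hpar.hG, hpar.hb]

/-- The condition `hC` of `LSM` follows from the other ones. -/
theorem nv_le (P : Parts) {m : Mach} (hok : m.Ok) {x : ℕ} (hpar : Par (Nat.log 2 x) m) :
    2 ^ m.nv m.G ≤ CH x := by
  have h := (P.PARA _ m hok hpar).1
  have h1 := h.h1
  have h5 := h.h5
  refine le_trans ?_ (P.PARB x m hok hpar).1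
  calc 2 ^ m.nv m.G ≤ 2 ^ (9 * JH (Nat.log 2 x) m.h) := by
        refine Nat.pow_le_pow_right (by norm_num) ?_
        unfold Mach.nv
        omega
    _ ≤ pH (Nat.log 2 x) m.h ^ (9 * JH (Nat.log 2 x) m.h) := Nat.pow_le_pow_left (by omega) _

/-- The condition `hS` of `LSM` follows from the other ones. -/
theorem sv_le (P : Parts) {m : Mach} (hok : m.Ok) {x : ℕ} (hpar : Par (Nat.log 2 x) m) :
    m.sv ≤ CH x := by
  have hcnt0 : ∀ l, 0 < m.cnt (pH (Nat.log 2 x) m.h) l := by
    intro l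
    have := (pH_prime (Nat.log 2 x) m.h).two_le
    unfold Mach.cnt Mach.ny ifz
    split_ifs
    · positivity
    · exact Nat.mul_pos (by omega) (by omega)
  have h := (P.PARB x m hok hpar).2
  have h0 : 0 < gH (Nat.log 2 x) m.h * (m.G + 2) := Nat.mul_pos (gH_pos _ _) (by omega)
  refine le_trans ?_ h
  have h7 : m.cnt (pH (Nat.log 2 x) m.h) 0 ≤
      ∏ l ∈ range (gH (Nat.log 2 x) m.h * (m.G + 2)), m.cnt (pH (Nat.log 2 x) m.h) l :=
    Finset.single_le_prod' (f := fun l => m.cnt (pH (Nat.log 2 x) m.h) l)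
      (fun l _ => hcnt0 l) (mem_range.2 h0)
  refine le_trans ?_ h7
  unfold Mach.cnt Mach.ny Mach.nl
  rw [Nat.zero_mod, ifz_zero]
  have h1 : 1 ≤ 2 ^ (m.σ * (2 * m.b + 1)) := Nat.one_le_two_pow
  have h2 := hok.hb
  have h3 : 0 < pH (Nat.log 2 x) m.h - 1 := by
    have := (pH_prime (Nat.log 2 x) m.h).two_le
    omega
  calc m.sv ≤ m.b * (m.sv + 1) := by nlinarith
    _ ≤ m.b * (m.sv + 1) * (pH (Nat.log 2 x) m.h - 1) := Nat.le_mul_of_pos_right _ h3
    _ ≤ 3 * (m.b * (m.sv + 1) * (pH (Nat.log 2 x) m.h - 1)) + 1 := by omega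
    _ ≤ _ := Nat.le_mul_of_pos_left _ h1

end Pool.Agent.Helper81.Tok2
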