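import Pool.Agent.Helper81.Tok2.TRUTH
import Pool.Agent.Helper19.Ram.FLAT
import Pool.Agent.Helper27.Tok2.INNER
import Pool.Agent.Helper61.Tok2.TRUTH1
import Pool.Agent.Helper64.Tok2.SAV
import Pool.Agent.Helper13.Tok2.ELEV
import Pool.Agent.Helper86.Tok2.NLEV
import Pool.Agent.Helper16.Tok2.PROC
import Pool.Agent.Helper85.Tok2.REL
import Pool.Agent.Helper80.Tok2.LSOP
import Pool.Agent.Helper75.Tok2.LSFN
import Pool.Agent.Helper56.Tok2.PARA
import Pool.Agent.Helper58.Tok2.PARB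

/-!
# All parts of the simulation of token machines whose silent steps are free
-/

namespace Pool.Agent.Helper81.Tok2

theorem proc : PROC_stmt := Pool.Agent.Helper16.Tok2.PROC
  (Pool.Agent.Helper13.Tok2.ELEV Pool.Agent.Helper27.Tok2.INNER Pool.Agent.Helper64.Tok2.SAV)
  (Pool.Agent.Helper86.Tok2.NLEV Pool.Agent.Helper27.Tok2.LINE
    (TRUTH Pool.Agent.Helper61.Tok2.TRUTH1))
  Pool.Agent.Helper16.Tok2.AGREE

theorem parts : Parts where
  FLAT := Pool.Agent.Helper19.Ram.FLAT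
  REL := Pool.Agent.Helper85.Tok2.REL
  FINAL := Pool.Agent.Helper16.Tok2.FINAL proc
  LSOP := Pool.Agent.Helper80.Tok2.LSOP Pool.Agent.Helper75.Tok2.LSFN
  PARA := Pool.Agent.Helper56.Tok2.PARA
  PARB := Pool.Agent.Helper58.Tok2.PARB

end Pool.Agent.Helper81.Tok2
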