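import Pool.Agent.Helper81.Tok2.Alg
import Pool.Agent.Helper28.Few.Macro

/-!
# The macro run of a token machine is the macro run of `Helper28.Few.Macro`
-/

namespace Pool.Agent.Helper81.Tok2

open Pool.Agent.Helper65.LinSpace Pool.Agent.Helper28.Ram

namespace Mach

variable (m : Mach)

theorem slt_eq (M : ℕ → ℕ) (q : ℕ) :
    m.slt q (M (m.A q)) = Pool.Agent.Helper28.Few.sil m.A m.N m.W M q := by
  unfold slt Pool.Agent.Helper28.Few.sil ifz eq01
  split_ifs <;> simp_all

theorem run_eq (M : ℕ → ℕ) (n q : ℕ) :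
    m.run M n q = iter (fun _ u => Pool.Agent.Helper28.Few.sil m.A m.N m.W M u) n q := by
  unfold run
  induction n with
  | zero => rfl
  | succ n ih =>
    rw [Function.iterate_succ_apply', ih]
    show m.slt _ _ = _
    rw [slt_eq]
    rfl

theorem conf_eq (T : ℕ) :
    m.conf T = Pool.Agent.Helper28.Few.mcf m.A m.N m.W m.h m.q0 m.M0 T := by
  induction T with
  | zero => rfl
  | succ T ih =>
    show (m.N (m.run (m.conf T).2 (2 ^ m.h) (m.conf T).1)
      ((m.conf T).2 (m.A (m.run (m.conf T).2 (2 ^ m.h) (m.conf T).1))),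
      Function.update (m.conf T).2 (m.A (m.run (m.conf T).2 (2 ^ m.h) (m.conf T).1))
      (m.W (m.run (m.conf T).2 (2 ^ m.h) (m.conf T).1)
        ((m.conf T).2 (m.A (m.run (m.conf T).2 (2 ^ m.h) (m.conf T).1))))) = _
    rw [run_eq, ih]
    rfl

end Mach

end Pool.Agent.Helper81.Tok2
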