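import Pool.Agent.Helper81.Tok2.Alg
import Pool.Agent.Helper28.Ram.Num

/-!
# Token machines whose silent steps are free: the simulation on digits

An array `a : ℕ → ℕ` of digits codes a state of the simulation: the entry `9 x + c` is, for
`c = 0, …, 8`, the register `x`, the mode, the node and the sign of the level `x`, the bit `x % σ` of
the query of the block `x / σ`, the two accumulators of the block `x`, and the sum and the left
factor of the level `x % (h + 1)` of squaring of the block `x / (h + 1)`.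
-/

namespace Pool.Agent.Helper81.Tok2

open Pool.Agent.Helper65.LinSpace Pool.Agent.Helper28.Ram Finset
open Pool.Agent.Helper28.Ram.Mach (sgz)

/-- The multilinear extension of the `q`-th bit of `F` (as a function of `N` bits), modulo `p`. -/
def fhG (p N : ℕ) (F : ℕ → ℕ) (q : ℕ) (X : ℕ → ℕ) : ℕ :=
  (∑ u ∈ range (2 ^ N), dig 2 (F u) q *
    ((∏ j ∈ range N, ifz (dig 2 u j) (p + 1 - X j) (X j)) % p)) % p

/-- `1` if `lo ≤ x < lo + n`. -/
def rgn (lo n x : ℕ) : ℕ := le01 lo x * lt01 x (lo + n)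

namespace Mach

variable (m : Mach)

/-- The variables of the node `i`: the registers before the interval `i`, then the cells `D`. -/
def varN (i : ℕ) (X D : ℕ → ℕ) (j : ℕ) : ℕ := ifz (lt01 j (i * m.wn)) (D (j - i * m.wn)) (X j)

/-! ### Folding -/

/-- The value `c` of the leaf `w`, and what becomes of it at the level `u`, modulo `p`. -/
def cvN (p w c : ℕ) (sa sl : ℕ → ℕ) (u : ℕ) : ℕ :=
  nrec c (fun t v => (ifz (m.gp w t) 0 (sa t) + sl t * v) % p) u

/-- The new left factor of the level `u`. -/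
def nslN (p w c : ℕ) (sa sl : ℕ → ℕ) (u : ℕ) : ℕ :=
  ifz (lt01 w m.sv * (m.rch w u * eq01 (m.sd w u) 0)) (sl u) (m.cvN p w c sa sl u)

/-- The new sum of the level `u`. -/
def nsaN (p w c : ℕ) (sa sl : ℕ → ℕ) (u : ℕ) : ℕ :=
  ifz (lt01 w m.sv * (m.rch w u * eq01 (m.sd w u) 1)) (sa u) (m.cvN p w c sa sl (u + 1))

/-- The new product. -/
def nacN (p w c : ℕ) (sa sl : ℕ → ℕ) (ac : ℕ) : ℕ :=
  ifz (eq01 w m.sv) (ifz (eq01 (w + 1) m.sv) ac (ac * m.cvN p w c sa sl m.h)) (ac * c)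

/-! ### The operations -/

/-- The query of the block `t`. -/
def qN (a : ℕ → ℕ) (t : ℕ) : ℕ := tab 2 m.σ fun o => a (9 * (t * m.σ + o) + 4)

/-- `1` if the level `l + 1` evaluates the polynomials of a node before `G`. -/
def isY (a : ℕ → ℕ) (l : ℕ) : ℕ :=
  eq01 (l % (m.G + 2)) 0 * (eq01 (a (9 * (l + 1) + 1)) 2 * lt01 (a (9 * (l + 1) + 2)) m.G)

/-- `1` if the level `l + 1` evaluates the polynomials of the node `G` in the operation `j`. -/
def isZ (p : ℕ) (a : ℕ → ℕ) (l j : ℕ) : ℕ :=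
  eq01 (l % (m.G + 2)) 0 * (eq01 (a (9 * (l + 1) + 1)) 2 * eq01 (a (9 * (l + 1) + 2)) m.G *
    lt01 j (3 * (p - 1)))

/-- `1` if the level `l + 1` evaluates a node. -/
def isN (a : ℕ → ℕ) (l : ℕ) : ℕ :=
  lt01 0 (l % (m.G + 2)) *
    (eq01 (a (9 * (l + 1) + 1)) 1 * lt01 (a (9 * (l + 1) + 2)) (l % (m.G + 2)))

/-- `1` if the level `l + 1` passes on the evaluation of polynomials. -/
def isP (a : ℕ → ℕ) (l j : ℕ) : ℕ :=
  lt01 0 (l % (m.G + 2)) *
    (eq01 (a (9 * (l + 1) + 1)) 2 * le01 (a (9 * (l + 1) + 2)) m.G * eq01 j 0)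

/-- `1` if the operation `e` of a transcript is the last one. -/
def isL (p e : ℕ) : ℕ := eq01 e (3 * (m.nl * (p - 1)))

/-- `1` if the operation `e` of a transcript folds the value of a leaf. -/
def isF (p e : ℕ) : ℕ :=
  ifz (m.isL p e) (eq01 (e % 3) 2 * eq01 (e / 3 % (p - 1)) (p - 2)) 0

/-- The new register `x` in the operation `e` for the transcript `y` of the node `i`. -/
def yR (p k i y e : ℕ) (sg ac : ℕ) (a : ℕ → ℕ) (x : ℕ) : ℕ :=
  ifz (m.isL p e)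
    (ifz (rgn (m.cl k) m.wc x) (a (9 * x))
      (ifz (e % 3) ((e / 3 % (p - 1) + 1) * a (9 * x) % p)
        (ifz (e % 3 - 1) (a (9 * x)) (invN p (e / 3 % (p - 1) + 1) * a (9 * x) % p))))
    (ifz (rgn (i * m.wn) m.wn x) (a (9 * x))
      ((a (9 * x) + ifz sg (p - 1) 1 * (ac * dig 2 (y / 2 ^ m.σ) (x - i * m.wn))) % p))

/-- The new register `x` in the operation `e` for the node `G` and the query `u`. -/
def zR (p k u e : ℕ) (sg : ℕ) (a : ℕ → ℕ) (x : ℕ) : ℕ :=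
  ifz (e % 3)
    (ifz (rgn (m.cl k) m.wc x) (a (9 * x)) ((e / 3 + 1) * a (9 * x) % p))
    (ifz (e % 3 - 1)
      (ifz (rgn (m.cl (k + 1)) m.wc x) (a (9 * x))
        ((a (9 * x) + ifz sg 1 (p - 1) * fhG p (m.nv m.G) (m.top u) (x - m.cl (k + 1))
          (m.varN m.G (fun j => a (9 * j)) fun o => a (9 * (m.cl k + o)))) % p))
      (ifz (rgn (m.cl k) m.wc x) (a (9 * x)) (invN p (e / 3 + 1) * a (9 * x) % p)))

/-- The new register `x`. -/
def nR (p l j : ℕ) (a : ℕ → ℕ) (x : ℕ) : ℕ :=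
  ifz (m.isY a l)
    (ifz (m.isZ p a l j)
      (ifz (m.isN a l * lt01 x (a (9 * (l + 1) + 2) * m.wn))
        (a (9 * x))
        (ifz (j % (2 * m.G + 3))
          ((j / (2 * m.G + 3) + 1) * a (9 * x) % p)
          (ifz (eq01 (j % (2 * m.G + 3)) (2 * m.G + 2)) (a (9 * x))
            (invN p (j / (2 * m.G + 3) + 1) * a (9 * x) % p))))
      (m.zR p (l / (m.G + 2)) (m.qN a (l / (m.G + 2) + 1)) j (a (9 * (l + 1) + 3)) a x))
    (m.yR p (l / (m.G + 2)) (a (9 * (l + 1) + 2)) (j / m.ny p) (j % m.ny p)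
      (a (9 * (l + 1) + 3)) (a (9 * (l / (m.G + 2)) + 5)) a x)

/-- The new mode of the level `l`. -/
def cMd (p l j : ℕ) (a : ℕ → ℕ) : ℕ :=
  ifz (m.isY a l)
    (ifz (m.isZ p a l j)
      (ifz (m.isN a l)
        (ifz (m.isP a l j) 0 2)
        (ifz (j % (2 * m.G + 3)) 0
          (ifz (le01 (j % (2 * m.G + 3)) m.G)
            (ifz (eq01 (j % (2 * m.G + 3)) (m.G + 1))
              (ifz (le01 (j % (2 * m.G + 3)) (2 * m.G + 1)) 0
                (lt01 (j % (2 * m.G + 3) - (m.G + 2)) (a (9 * (l + 1) + 2))))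
              2)
            (lt01 (j % (2 * m.G + 3) - 1) (a (9 * (l + 1) + 2))))))
      (lt01 (j % 3) 2))
    (ifz (m.isL p (j % m.ny p)) (lt01 (j % m.ny p % 3) 2) 0)

/-- The new node of the level `l`. -/
def cNd (p l j : ℕ) (a : ℕ → ℕ) : ℕ :=
  ifz (m.isY a l)
    (ifz (m.isZ p a l j)
      (ifz (m.isN a l)
        (ifz (m.isP a l j) 0 (a (9 * (l + 1) + 2)))
        (ifz (j % (2 * m.G + 3)) 0
          (ifz (le01 (j % (2 * m.G + 3)) m.G)
            (ifz (eq01 (j % (2 * m.G + 3)) (m.G + 1))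
              (ifz (le01 (j % (2 * m.G + 3)) (2 * m.G + 1)) 0
                (lt01 (j % (2 * m.G + 3) - (m.G + 2)) (a (9 * (l + 1) + 2)) *
                  (j % (2 * m.G + 3) - (m.G + 2))))
              (a (9 * (l + 1) + 2)))
            (lt01 (j % (2 * m.G + 3) - 1) (a (9 * (l + 1) + 2)) * (j % (2 * m.G + 3) - 1)))))
      (lt01 (j % 3) 2 * m.G))
    (ifz (m.isL p (j % m.ny p)) (lt01 (j % m.ny p % 3) 2 * m.G) 0)

/-- The new sign of the level `l`. -/
def cSg (p l j : ℕ) (a : ℕ → ℕ) : ℕ :=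
  ifz (m.isY a l)
    (ifz (m.isZ p a l j)
      (ifz (m.isN a l)
        (ifz (m.isP a l j) 0 (a (9 * (l + 1) + 3)))
        (ifz (j % (2 * m.G + 3)) 0
          (ifz (le01 (j % (2 * m.G + 3)) m.G)
            (ifz (eq01 (j % (2 * m.G + 3)) (m.G + 1))
              (ifz (le01 (j % (2 * m.G + 3)) (2 * m.G + 1)) 0
                (lt01 (j % (2 * m.G + 3) - (m.G + 2)) (a (9 * (l + 1) + 2))))
              (a (9 * (l + 1) + 3)))
            0)))
      (eq01 (j % 3) 1))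
    (ifz (m.isL p (j % m.ny p)) (eq01 (j % m.ny p % 3) 1) 0)

/-- The new bit `x` of the queries. -/
def nQ (p l j : ℕ) (a : ℕ → ℕ) (x : ℕ) : ℕ :=
  ifz (eq01 (x / m.σ) (l / (m.G + 2))) (a (9 * x + 4))
    (ifz (m.isY a l)
      (ifz (m.isZ p a l j * eq01 (j % 3) 0) (a (9 * x + 4)) (a (9 * (x + m.σ) + 4)))
      (ifz (m.isL p (j % m.ny p))
        (ifz (j % m.ny p % 3)
          (dig 2 (m.qy (j / m.ny p) (j % m.ny p / 3 / (p - 1))) (x % m.σ))
          (a (9 * x + 4)))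
        (a (9 * x + 4))))

/-- The sums of the block `k`. -/
def saN (a : ℕ → ℕ) (k u : ℕ) : ℕ := a (9 * (k * (m.h + 1) + u) + 7)

/-- The left factors of the block `k`. -/
def slN (a : ℕ → ℕ) (k u : ℕ) : ℕ := a (9 * (k * (m.h + 1) + u) + 8)

/-- The new first accumulator of the block `x`. -/
def nAc (p l j : ℕ) (a : ℕ → ℕ) (x : ℕ) : ℕ :=
  ifz (m.isY a l * eq01 x (l / (m.G + 2))) (a (9 * x + 5))
    (ifz (m.isF p (j % m.ny p))
      (ifz (j % m.ny p) 1 (a (9 * x + 5)))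
      (m.nacN p (j % m.ny p / 3 / (p - 1) % (m.sv + 1)) (p - a (9 * x + 6)) (m.saN a x)
        (m.slN a x) (a (9 * x + 5)) % p))

/-- The new second accumulator of the block `x`. -/
def nAu (p l j : ℕ) (a : ℕ → ℕ) (x : ℕ) : ℕ :=
  ifz (m.isY a l * eq01 x (l / (m.G + 2))) (a (9 * x + 6))
    (ifz (m.isL p (j % m.ny p))
      (ifz (j % m.ny p % 3)
        (ifz (j % m.ny p / 3 % (p - 1)) 0 (a (9 * x + 6)))
        (ifz (j % m.ny p % 3 - 1)
          ((a (9 * x + 6) + fhG p (m.nv (a (9 * (l + 1) + 2)))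
            (m.bf (a (9 * (l + 1) + 2)) (j / m.ny p) (j % m.ny p / 3 / (p - 1))) 0
            (m.varN (a (9 * (l + 1) + 2)) (fun i => a (9 * i))
              fun o => a (9 * (m.cl (l / (m.G + 2)) + o)))) % p)
          (a (9 * x + 6))))
      (a (9 * x + 6)))

/-- The new sum `x`. -/
def nSa (p l j : ℕ) (a : ℕ → ℕ) (x : ℕ) : ℕ :=
  ifz (m.isY a l * (eq01 (x / (m.h + 1)) (l / (m.G + 2)) * m.isF p (j % m.ny p))) (a (9 * x + 7))
    (m.nsaN p (j % m.ny p / 3 / (p - 1) % (m.sv + 1)) (p - a (9 * (l / (m.G + 2)) + 6))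
      (m.saN a (l / (m.G + 2))) (m.slN a (l / (m.G + 2))) (x % (m.h + 1)) % p)

/-- The new left factor `x`. -/
def nSl (p l j : ℕ) (a : ℕ → ℕ) (x : ℕ) : ℕ :=
  ifz (m.isY a l * (eq01 (x / (m.h + 1)) (l / (m.G + 2)) * m.isF p (j % m.ny p))) (a (9 * x + 8))
    (m.nslN p (j % m.ny p / 3 / (p - 1) % (m.sv + 1)) (p - a (9 * (l / (m.G + 2)) + 6))
      (m.saN a (l / (m.G + 2))) (m.slN a (l / (m.G + 2))) (x % (m.h + 1)) % p)

/-- The operation `j` of the level `l + 1`. -/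
def opA (p l j : ℕ) (a : ℕ → ℕ) (x : ℕ) : ℕ :=
  ifz (x % 9) (m.nR p l j a (x / 9))
    (ifz (x % 9 - 1) (ifz (eq01 (x / 9) l) (a x) (m.cMd p l j a))
      (ifz (x % 9 - 2) (ifz (eq01 (x / 9) l) (a x) (m.cNd p l j a))
        (ifz (x % 9 - 3) (ifz (eq01 (x / 9) l) (a x) (m.cSg p l j a))
          (ifz (x % 9 - 4) (m.nQ p l j a (x / 9))
            (ifz (x % 9 - 5) (m.nAc p l j a (x / 9))
              (ifz (x % 9 - 6) (m.nAu p l j a (x / 9))
                (ifz (x % 9 - 7) (m.nSa p l j a (x / 9)) (m.nSl p l j a (x / 9))))))))) % p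

/-- The operation of the level `0`. -/
def baseA (p : ℕ) (a : ℕ → ℕ) (x : ℕ) : ℕ :=
  (a x + eq01 (a 1) 1 * (eq01 (x % 9) 0 * rgn (m.cl 0) m.wc (x / 9)) *
    (ifz (a 3) 1 (p - 1) * dig 2 (m.q0 + 2 ^ m.σ * m.M0 (m.qN a 0)) (x / 9 - m.cl 0))) % p

/-- The initial array. -/
def initA (K x : ℕ) : ℕ :=
  ifz (eq01 x (9 * (K * (m.G + 2)) + 1)) (ifz (eq01 x (9 * (K * (m.G + 2)) + 2)) 0 m.G) 1

/-- The event after `K * (G * b)` macro steps. -/
def sim (p J K : ℕ) : ℕ :=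
  tab 2 m.σ fun o => prc (9 * J) (m.cnt p) (m.baseA p) (m.opA p) (K * (m.G + 2))
    (trc (9 * J) (m.initA K)) (9 * (m.cl K + o)) % 2

variable {p : ℕ}

/-- The code of a state of the simulation. -/
def enc (s : St p) (x : ℕ) : ℕ :=
  if x % 9 = 0 then (s.R (x / 9)).val
  else if x % 9 = 1 then s.md (x / 9)
  else if x % 9 = 2 then s.nd (x / 9)
  else if x % 9 = 3 then s.sg (x / 9)
  else if x % 9 = 4 then dig 2 (s.qa (x / 9 / m.σ)) (x / 9 % m.σ)
  else if x % 9 = 5 then (s.ac (x / 9)).val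
  else if x % 9 = 6 then (s.au (x / 9)).val
  else if x % 9 = 7 then (s.sa (x / 9 / (m.h + 1)) (x / 9 % (m.h + 1))).val
  else (s.sl (x / 9 / (m.h + 1)) (x / 9 % (m.h + 1))).val

/-- The array `a` codes the state `s`. -/
def Rel (J K : ℕ) (a : ℕ → ℕ) (s : St p) : Prop :=
  (∀ x < 9 * J, a x = m.enc s x ∧ a x < p) ∧ ∀ t ≤ K, s.qa t < 2 ^ m.σ

variable (p) in
/-- The prime and the arrays are large enough. -/
structure Fit (J K : ℕ) : Prop where
  h1 : m.G * m.wn + 2 * m.wc ≤ J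
  h2 : K * (m.G + 2) < J
  h3 : (K + 1) * m.σ ≤ J
  h4 : m.G < p
  h5 : 2 < p
  h6 : (K + 1) * (m.h + 1) ≤ J

end Mach

/-- A family of machines whose parameters and functions are computed in linear space. -/
structure LSM {α : Type} [Ctx α] (m : α → Mach) (C : α → ℕ) : Prop where
  σ : LS (fun z => (m z).σ)
  a : LS (fun z => (m z).a)
  b : LS (fun z => (m z).b)
  G : LS (fun z => (m z).G)
  h : LS (fun z => (m z).h)
  A : LS (fun z : α × ℕ => (m z.1).A z.2)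
  N : LS (fun z : α × ℕ × ℕ => (m z.1).N z.2.1 z.2.2)
  W : LS (fun z : α × ℕ × ℕ => (m z.1).W z.2.1 z.2.2)
  q0 : LS (fun z => (m z).q0)
  M0 : LS (fun z : α × ℕ => (m z.1).M0 z.2)
  bd : LS C
  ok : ∀ z, (m z).Ok
  hC : ∀ z, 2 ^ (m z).nv (m z).G ≤ C z
  hS : ∀ z, (m z).sv ≤ C z

end Pool.Agent.Helper81.Tok2
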